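import Pool.Agent.Lib.MP_ef18bd_co.R80.JntS

/-!
# The comparison up to `n / 80`

`bound80`: from the chain with `80` instead of `84`: `80 Γ⁻ ≤ 80 Γₛ + n + 72 c` for a cubic graph, `c` the number of
the connected components with at least `24` vertices.
-/

namespace EF18.P80

open EF18

open Finset

section

variable {V : Type} [Fintype V] [DecidableEq V] {G : SimpleGraph V} [DecidableRel G.Adj]

/-- **the packing bound**, with the first pick `v` -/
theorem packN (hG : G.IsRegularOfDegree 3) {c f2 f1 κ N : ℕ} (v : V) (hN : ((B2 G v) \ cn G v).card ≤ N)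
    (hκ : N * κ ≤ 54) (g2 : f2 ≤ κ) (g1 : 4 + f1 ≤ κ) (Ex : Finset V → ℕ)
    (hex : ∀ U : Finset V, Inv G U → Ex U ≤ ∑ p ∈ univ \ U, ch f2 f1 (nU G U p))
    (hall : ∀ U : Finset V, Inv G U → U ≠ univ →
      ∃ m, Has G U m ∧ 80 * m ≤ PsiT (fw.iso 12) G U + c * dpn G U + Ex U) :
    ∃ S : Finset V, Pk G S ∧ Mx G univ S ∧
      80 * S.card ≤ 18 * Fintype.card V + c * dpn G univ + 62 := by
  have hI : Inv G (univ : Finset V) := fun x hx => absurd (mem_univ x) hx
  have hne : (univ : Finset V) \ B2 G v ≠ univ := fun h => by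
    have := mem_univ v
    rw [← h, mem_sdiff] at this
    exact this.2 self_mem_B2
  obtain ⟨m, hm, hm2⟩ := hall _ (hI.pick hG v) hne
  obtain ⟨S, a1, a2, a3⟩ := (Has.pick (mem_univ v) hm).packing
  refine ⟨S, a1, a2, ?_⟩
  have e0 : (linTF (3 * 6) 9 22).F 3 0 = 3 * 6 := by simp [linTF]
  have h3 := PsiT_firstN hG (linTF (3 * 6) 9 22) (f2 := f2) (f1 := f1) (κ := κ)
    (by rw [e0]; change 2 * 9 + f2 ≤ 3 * 6 + κ; omega)
    (by rw [e0]; change 22 + f1 ≤ 3 * 6 + κ; omega) v hN
  have h4 := hex _ (hI.pick hG v)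
  have h5 : PsiT (fw.iso 12) G (univ \ B2 G v) ≤ PsiT (linTF (3 * 6) 9 22) G (univ \ B2 G v) := by
    refine PsiT_le hG (fun a c h => ?_) (hI.pick hG v)
    show 18 + (3 - a - c) * 9 + c * 18 + (if a = 0 ∧ c = 3 then 12 else 0) ≤
      3 * 6 + (3 - a - c) * 9 + c * 22
    split_ifs with h1
    · rw [h1.1, h1.2]
    · omega
  have h6 := Nat.mul_le_mul_left c (dpn_mono (G := G) (subset_univ (univ \ B2 G v)))
  rw [e0] at h3
  omega

/-- one connected graph -/
theorem key80 (h1 : G.IsRegularOfDegree 3) (hc : G.Connected) (h3 : NoK4 G) {CL : List CPc}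
    (h9 : f13 CL = true) (b2 : Bnd80 CL G) :
    ∃ S : Finset V, Pk G S ∧ Mx G univ S ∧
      80 * S.card ≤ 18 * Fintype.card V + 6 * (mids G).card + 62 := by
  have := hc.nonempty
  have key : ∃ S : Finset V, Pk G S ∧ Mx G univ S ∧
      80 * S.card ≤ 18 * Fintype.card V + 6 * dpn G univ + 62 := by
    by_cases ht : ∃ v a b, G.Adj v a ∧ G.Adj a b ∧ G.Adj v b
    · obtain ⟨v, a, b, t1, t2, t3⟩ := ht
      refine packN h1 (f2 := 13) (f1 := 9) (κ := 13) v (B2_card_tri h1 t1 t2 t3) (by norm_num) le_rfl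
        le_rfl (exv CL G) (fun U hI => exv_outN (fun e he E _ => ?_) hI) b2
      have h5 := List.all_eq_true.1 h9 e he
      rw [Bool.and_eq_true] at h5
      exact cfv_le h5.1
    · obtain ⟨v⟩ := this
      have htf' : TF3 G := fun a b c x y z => ht ⟨a, b, c, x, y, z⟩
      refine packN h1 (f2 := 9) (f1 := 5) (κ := 9) v (B2_card h1 v) (by norm_num) le_rfl
        le_rfl (exv CL G) (fun U hI => exv_outN (fun e he E hp => ?_) hI) b2
      have h5 := List.all_eq_true.1 h9 e he
      rw [Bool.and_eq_true, Bool.or_eq_true] at h5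
      rcases h5.2 with h6 | h6
      · obtain ⟨φ, ν, h7, -⟩ := hp
        exact absurd h6 (trp_of htf' h7)
      · exact cfv_le h6
  obtain ⟨S, a1, a2, a3⟩ := key
  refine ⟨S, a1, a2, ?_⟩
  have h5 := dpn_le_mids h1 h3 univ
  omega

/-- one graph without `K4`: from a small maximal packing -/
theorem packing80 (hG : G.IsRegularOfDegree 3) (hK : NoK4 G)
    (h : ∃ S : Finset V, Pk G S ∧ Mx G univ S ∧
      80 * S.card ≤ 18 * Fintype.card V + 6 * (mids G).card + 62)
    {f : V → ℤ} (hf : MinimalMinus G f) :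
    ∃ S : Finset V, Pk G S ∧ Mx G univ S ∧
      160 * (S.card : ℤ) ≤ 80 * (Fintype.card V - ∑ v, f v) + Fintype.card V + 72 := by
  obtain ⟨S, hp, hm, h1⟩ := h
  obtain ⟨g, T1, T, D, hs⟩ := exists_dat hG hf
  have t3 := D.totalD hG hK
  rcases le_total S.card T.card with hle | hle
  · refine ⟨S, hp, hm, ?_⟩
    rw [← hs]
    omega
  · refine ⟨T, D.pk, D.mx, ?_⟩
    rw [← hs]
    omega

end

section

variable {V : Type} [Fintype V] [DecidableEq V] {G : SimpleGraph V} [DecidableRel G.Adj]
variable {ι : Type} [Fintype ι] [DecidableEq ι] (c : V → ι)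

/-- the packings of the classes together, the sizes -/
theorem glueN (hc : ∀ u v, G.Adj u v → c u = c v) (B : ι → ℤ)
    (h : ∀ k, ∃ S : Finset {v : V // c v = k}, Pk (part G c k) S ∧ Mx (part G c k) univ S ∧
      (S.card : ℤ) ≤ B k) :
    ∃ S : Finset V, Pk G S ∧ Mx G univ S ∧ (S.card : ℤ) ≤ ∑ k, B k := by
  choose S hS using h
  have hmem : ∀ (k : ι) (w : {v : V // c v = k}),
      w ∈ S k ↔ (⟨w.1, rfl⟩ : {v : V // c v = c w.1}) ∈ S (c w.1) := by
    rintro k ⟨w, rfl⟩
    rfl
  set T : Finset V := univ.filter (fun v => (⟨v, rfl⟩ : {x : V // c x = c v}) ∈ S (c v)) with hT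
  have hmT : ∀ (k : ι) (w : {v : V // c v = k}), w.1 ∈ T ↔ w ∈ S k := fun k w => by
    rw [hT, mem_filter, hmem k w]
    simp
  refine ⟨T, ?_, ?_, ?_⟩
  · intro v
    have h1 := (hS (c v)).1 ⟨v, rfl⟩
    rw [card_le_one] at h1 ⊢
    intro a ha b hb
    rw [mem_inter] at ha hb
    have hca : c a = c v := by
      rcases mem_cn.1 ha.1 with rfl | h
      · rfl
      · exact (hc _ _ h).symm
    have hcb : c b = c v := by
      rcases mem_cn.1 hb.1 with rfl | h
      · rfl
      · exact (hc _ _ h).symm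
    have h2 := h1 ⟨a, hca⟩ (mem_inter.2 ⟨(mem_cn_part hc _ _).2 ha.1, (hmT _ ⟨a, hca⟩).1 ha.2⟩)
      ⟨b, hcb⟩ (mem_inter.2 ⟨(mem_cn_part hc _ _).2 hb.1, (hmT _ ⟨b, hcb⟩).1 hb.2⟩)
    exact congrArg Subtype.val h2
  · intro v _
    obtain ⟨u, hu, x, hx⟩ := (hS (c v)).2.1 ⟨v, rfl⟩ (mem_univ _)
    rw [mem_inter] at hx
    exact ⟨u.1, (mem_cn_part hc _ _).1 hu, x.1, mem_inter.2 ⟨(mem_cn_part hc _ _).1 hx.1, (hmT _ x).2 hx.2⟩⟩
  · have h1 : T.card = ∑ k : ι, (S k).card := by
      rw [card_eq_sum_card_fiberwise (f := c) (t := univ) (fun _ _ => by simp)]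
      refine sum_congr rfl fun k _ => ?_
      rw [← card_map (Function.Embedding.subtype _)]
      congr 1
      ext x
      rw [mem_filter, mem_map]
      constructor
      · rintro ⟨hx, hk⟩
        exact ⟨⟨x, hk⟩, (hmT k ⟨x, hk⟩).1 hx, rfl⟩
      · rintro ⟨y, hy, rfl⟩
        exact ⟨(hmT k y).2 hy, y.2⟩
    rw [h1, Nat.cast_sum]
    exact sum_le_sum fun k _ => (hS k).2.2

/-- the sum of the weights of the classes -/
theorem sum_classes (f : V → ℤ) :
    ∑ k : ι, ((Fintype.card {v : V // c v = k} : ℤ) - ∑ w : {v : V // c v = k}, f w.1) =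
      Fintype.card V - ∑ v, f v := by
  have h2 : (Fintype.card V : ℤ) = ∑ k : ι, (Fintype.card {v : V // c v = k} : ℤ) := by
    rw [← Nat.cast_sum]
    congr 1
    rw [← card_univ, card_eq_sum_card_fiberwise (f := c) (t := univ) (fun _ _ => by simp)]
    refine sum_congr rfl fun k _ => ?_
    rw [Fintype.card_subtype]
  have h3 : ∑ v, f v = ∑ k : ι, ∑ w : {v : V // c v = k}, f w.1 := by
    rw [← sum_fiberwise_of_maps_to (g := c) (t := univ) (fun _ _ => by simp)]
    refine sum_congr rfl fun k _ => ?_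
    rw [← sum_subtype_eq_sum_filter]
    simp
  rw [h2, h3, ← sum_sub_distrib]

end

/-- the number of the connected components with at least `24` vertices -/
noncomputable def big {V : Type} [Fintype V] (G : SimpleGraph V) : ℕ :=
  Nat.card {k : G.ConnectedComponent // 24 ≤ Nat.card k.supp}

/-- **the comparison up to `n / 80`** from the bound with `80` in the connected cubic graphs -/
theorem bound80 {tf : Bool} {CL : List CPc} (h9 : f13 CL = true)
    (h : ∀ (W : Type) [Fintype W] [DecidableEq W] (H : SimpleGraph W) [DecidableRel H.Adj],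
      H.IsRegularOfDegree 3 → H.Connected → (tf = true → TF3 H) → Bnd80 CL H)
    (V : Type) [Fintype V] [DecidableEq V] (G : SimpleGraph V) [DecidableRel G.Adj]
    (hG : G.IsRegularOfDegree 3) (htf : tf = true → TF3 G) :
    80 * upperMinus G ≤ 80 * upperSigned G + Fintype.card V + 72 * big G := by
  classical
  obtain ⟨f, hf, hw⟩ := (attained hG).1
  have hc : ∀ u v, G.Adj u v → G.connectedComponentMk u = G.connectedComponentMk v := fun u v huv =>
    SimpleGraph.ConnectedComponent.connectedComponentMk_eq_of_adj huv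
  let n : G.ConnectedComponent → ℤ := fun k => Fintype.card {v : V // G.connectedComponentMk v = k}
  let a : G.ConnectedComponent → ℤ := fun k =>
    n k - ∑ w : {v : V // G.connectedComponentMk v = k}, f w.1
  let r : G.ConnectedComponent → ℤ := fun k => if 24 ≤ n k then n k + 72 else 0
  have hn : ∀ k, 0 ≤ n k := fun k => Nat.cast_nonneg _
  obtain ⟨S, hp, hm, h1⟩ := glueN (G := G) (c := G.connectedComponentMk) hc
    (fun k => (80 * a k + r k) / 160) (fun k => by
    have hr := reg_part hG hc k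
    have hcon : (part G G.connectedComponentMk k).Connected :=
      SimpleGraph.ConnectedComponent.connected_toSimpleGraph k
    have hmin := minus_part hc hf k
    by_cases hk : 24 ≤ n k
    · have e : r k = n k + 72 := if_pos hk
      rw [e]
      by_cases hK : NoK4 (part G G.connectedComponentMk k)
      · obtain ⟨S, s1, s2, s3⟩ := packing80 hr hK (key80 hr hcon hK h9 (h _ _ hr hcon
          fun ht x y z hxy hyz hxz => htf ht _ _ _ hxy hyz hxz)) hmin
        refine ⟨S, s1, s2, ?_⟩
        rw [Int.le_ediv_iff_mul_le (by norm_num)]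
        change _ ≤ 80 * (((Fintype.card {v : V // G.connectedComponentMk v = k} : ℕ) : ℤ) - _) +
          (((Fintype.card {v : V // G.connectedComponentMk v = k} : ℕ) : ℤ) + 72)
        linarith
      · exfalso
        have a4 := card_of_K4 hr hcon hK
        change 24 ≤ ((Fintype.card {v : V // G.connectedComponentMk v = k} : ℕ) : ℤ) at hk
        omega
    · have e : r k = 0 := if_neg hk
      rw [e]
      obtain ⟨S, s1, s2, s3, -⟩ := exists_packing hr hmin
      refine ⟨S, s1, s2, ?_⟩
      rw [Int.le_ediv_iff_mul_le (by norm_num)]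
      change ¬ 24 ≤ ((Fintype.card {v : V // G.connectedComponentMk v = k} : ℕ) : ℤ) at hk
      change _ ≤ 80 * (((Fintype.card {v : V // G.connectedComponentMk v = k} : ℕ) : ℤ) - _) + 0
      omega)
  have h2 := le_upperSigned hG hp hm
  have h3 : ∑ k, a k = Fintype.card V - ∑ v, f v := sum_classes (c := G.connectedComponentMk) f
  have h4 : ∑ k, n k = Fintype.card V := by
    have := sum_classes (c := G.connectedComponentMk) (fun _ : V => (0 : ℤ))
    simpa using this
  have h5 : ∑ k, r k ≤ Fintype.card V + 72 * big G := by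
    have e1 : ∀ k, r k ≤ n k + 72 * (if 24 ≤ n k then 1 else 0) := fun k => by
      have := hn k
      by_cases hk : 24 ≤ n k
      · have e : r k = n k + 72 := if_pos hk
        rw [e, if_pos hk]
        omega
      · have e : r k = 0 := if_neg hk
        rw [e, if_neg hk]
        omega
    refine (sum_le_sum fun k _ => e1 k).trans ?_
    rw [sum_add_distrib, h4, ← mul_sum, sum_boole]
    have e2 : big G = (univ.filter fun k : G.ConnectedComponent => 24 ≤ n k).card := by
      unfold big
      rw [Nat.card_eq_fintype_card, Fintype.card_subtype]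
      congr 1
      ext k
      simp only [mem_filter, mem_univ, true_and]
      have e3 : Nat.card k.supp = Fintype.card {v : V // G.connectedComponentMk v = k} := by
        rw [← Nat.card_eq_fintype_card]
        rfl
      rw [e3]
      change _ ↔ (24 : ℤ) ≤ ((Fintype.card {v : V // G.connectedComponentMk v = k} : ℕ) : ℤ)
      omega
    rw [e2]
  have h6 : 160 * ∑ k, ((80 * a k + r k) / 160) ≤ 80 * ∑ k, a k + ∑ k, r k := by
    rw [mul_sum, mul_sum, ← sum_add_distrib]
    exact sum_le_sum fun k _ => Int.mul_ediv_self_le (by norm_num)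
  rw [hw]
  rw [h3] at h6
  linarith

/-- **all cubic graphs** from one chain -/
theorem final80 (h : Chj false) (V : Type) [Fintype V] [DecidableEq V] (G : SimpleGraph V)
    [DecidableRel G.Adj] (hG : G.IsRegularOfDegree 3) :
    80 * upperMinus G ≤ 80 * upperSigned G + Fintype.card V + 72 * big G := by
  obtain ⟨CA, CB, dn, h1, h2, h3, h4⟩ := h
  exact bound80 (tf := false) h1 (fun W _ _ H _ a b _ => (h2.bnd h3 h4 a b
    fun hf => Bool.noConfusion hf).flat) V G hG fun hf => Bool.noConfusion hf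

/-- **triangle-free cubic graphs** from one chain -/
theorem final80_tf (h : Chj true) (V : Type) [Fintype V] [DecidableEq V] (G : SimpleGraph V)
    [DecidableRel G.Adj] (hG : G.IsRegularOfDegree 3) (ht : G.CliqueFree 3) :
    80 * upperMinus G ≤ 80 * upperSigned G + Fintype.card V + 72 * big G := by
  obtain ⟨CA, CB, dn, h1, h2, h3, h4⟩ := h
  exact bound80 (tf := true) h1 (fun W _ _ H _ a b c => (h2.bnd h3 h4 a b c).flat) V G hG
    fun _ => tf3_of ht

end EF18.P80
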