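import Pool.Agent.Lib.MP_ef18bd_co.R80.JntR

/-!
# The membership checks by indices

The patterns of every phase are in one number: `unp B N 0` is the list, `dnL Ps` all closed patterns. `memI`: a
membership from a hint (the number of the phase and the index). `ckT`: the bounds `κ` and the closed states of a
piece with hints; `pcksI`: all pieces. `nzq`, `j0I`: the other checks. `Dj.rawI`: one phase.
-/

namespace EF18.P80

open Finset

/-- the list of the patterns `i`, .., `i + N - 1` of the number `B` -/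
def unp (B : ℕ) : ℕ → ℕ → List (ℕ × ℕ)
  | 0, _ => []
  | N + 1, i => frc (rcd B i) fun R => (Nat.mod R 256, Nat.div R 256) :: frc (Nat.succ i) fun i' => unp B N i'

theorem unp_succ (B N i : ℕ) : unp B (N + 1) i = prc B i :: unp B N (i + 1) := by
  rw [unp, frc_eq, frc_eq]
  rfl

theorem mem_unp {B : ℕ} : ∀ {N i j : ℕ}, i ≤ j → j < i + N → prc B j ∈ unp B N i := by
  intro N
  induction N with
  | zero => intro i j h1 h2; omega
  | succ N ih =>
    intro i j h1 h2
    rw [unp_succ]
    rcases Nat.lt_or_ge i j with h3 | h3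
    · exact List.mem_cons_of_mem _ (ih (by omega) (by omega))
    · rw [show j = i by omega]
      exact List.mem_cons_self

/-- all patterns of the phases -/
def dnL : List (ℕ × ℕ) → List (ℕ × ℕ)
  | [] => []
  | P :: Ps => unp P.1 P.2 0 ++ dnL Ps

theorem mem_dnL {Ps : List (ℕ × ℕ)} {P q : ℕ × ℕ} (h : P ∈ Ps) (hq : q ∈ unp P.1 P.2 0) : q ∈ dnL Ps := by
  induction Ps with
  | nil => exact absurd h List.not_mem_nil
  | cons a Ps ih =>
    rw [dnL]
    rcases List.mem_cons.1 h with rfl | h
    · exact List.mem_append_left _ hq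
    · exact List.mem_append_right _ (ih h)

/-- the pattern `(n, p)` is the pattern with the index `h / 64` of the phase `h % 64` of the list -/
def memI (Ps : List (ℕ × ℕ)) (h n p : ℕ) : Bool :=
  (fun P : ℕ × ℕ => frc (Nat.div h 64) fun i => Nat.ble (Nat.succ i) P.2 &&
    frc (rcd P.1 i) fun R => Nat.beq (Nat.div R 256) p && Nat.beq (Nat.mod R 256) n) (Ps.getD (Nat.mod h 64) (0, 0))

theorem memI_of {Ps : List (ℕ × ℕ)} {h n p : ℕ} (hm : memI Ps h n p = true) : (n, p) ∈ dnL Ps := by
  unfold memI at hm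
  dsimp only at hm
  rw [frc_eq, frc_eq] at hm
  simp only [Bool.and_eq_true] at hm
  obtain ⟨h1, h2, h3⟩ := hm
  have h1' : Nat.div h 64 < (Ps.getD (Nat.mod h 64) (0, 0)).2 := Nat.le_of_ble_eq_true h1
  have e : (n, p) = prc (Ps.getD (Nat.mod h 64) (0, 0)).1 (Nat.div h 64) := by
    unfold prc
    rw [Nat.eq_of_beq_eq_true h2, Nat.eq_of_beq_eq_true h3]
  have hl : Nat.mod h 64 < Ps.length := by
    by_contra hc
    rw [List.getD_eq_default _ _ (by omega)] at h1'
    exact absurd h1' (Nat.not_lt_zero _)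
  rw [e]
  refine mem_dnL (P := Ps.getD (Nat.mod h 64) (0, 0)) ?_ (mem_unp (Nat.zero_le _) (by omega))
  rw [List.getD_eq_getElem _ _ hl]
  exact List.getElem_mem hl

/-- all patterns of the list, one hint of 24 bits for each, then `k` -/
def allK (Ps : List (ℕ × ℕ)) (k : ℕ → Bool) : List (ℕ × ℕ) → ℕ → Bool
  | [], H => k H
  | s :: L, H => memI Ps (Nat.mod H 16777216) s.1 s.2 && frc (Nat.div H 16777216) fun H' => allK Ps k L H'

theorem allK_of {Ps : List (ℕ × ℕ)} {k : ℕ → Bool} : ∀ {L : List (ℕ × ℕ)} {H : ℕ}, allK Ps k L H = true →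
    (∀ s ∈ L, s ∈ dnL Ps) ∧ ∃ H', k H' = true := by
  intro L
  induction L with
  | nil => intro H h; exact ⟨fun s hs => absurd hs List.not_mem_nil, H, h⟩
  | cons s L ih =>
    intro H h
    rw [allK, frc_eq, Bool.and_eq_true] at h
    obtain ⟨h1, h2⟩ := ih h.2
    refine ⟨fun t ht => ?_, h2⟩
    rcases List.mem_cons.1 ht with rfl | ht
    · exact memI_of h.1
    · exact h1 t ht

/-! ### the needed patterns of one state -/

/-- the pairs of the list, in its order -/
def prs : List ℕ → List (ℕ × ℕ)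
  | [] => []
  | x :: L => L.map (fun y => (x, y)) ++ prs L

/-- the triples of the list, in its order -/
def tps : List ℕ → List (ℕ × ℕ × ℕ)
  | [] => []
  | x :: L => (prs L).map (fun y => (x, y.1, y.2)) ++ tps L

theorem allp_prs {f : ℕ → ℕ → Bool} : ∀ {L : List ℕ}, (∀ x ∈ prs L, f x.1 x.2 = true) → allp f L = true := by
  intro L
  induction L with
  | nil => intro _; rfl
  | cons a L ih =>
    intro h
    rw [allp, Bool.and_eq_true]
    refine ⟨List.all_eq_true.2 fun y hy => ?_, ih fun x hx => h x (List.mem_append_right _ hx)⟩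
    exact h (a, y) (List.mem_append_left _ (List.mem_map.2 ⟨y, hy, rfl⟩))

theorem allt_tps {f : ℕ → ℕ → ℕ → Bool} : ∀ {L : List ℕ}, (∀ x ∈ tps L, f x.1 x.2.1 x.2.2 = true) →
    allt f L = true := by
  intro L
  induction L with
  | nil => intro _; rfl
  | cons a L ih =>
    intro h
    rw [allt, Bool.and_eq_true]
    refine ⟨allp_prs fun x hx => ?_, ih fun x hx => h x (List.mem_append_right _ hx)⟩
    exact h (a, x.1, x.2) (List.mem_append_left _ (List.mem_map.2 ⟨x, hx, rfl⟩))

/-- the pairs with the bits of `m` -/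
def slp : List (ℕ × ℕ) → ℕ → List (ℕ × ℕ)
  | [], _ => []
  | x :: L, m => bif Nat.beq (Nat.mod m 2) 1 then x :: slp L (Nat.div m 2) else slp L (Nat.div m 2)

theorem anyp_mono {f g : ℕ → ℕ → Bool} (h : ∀ x y, f x y = true → g x y = true) : ∀ {L : List ℕ},
    anyp f L = true → anyp g L = true := by
  intro L
  induction L with
  | nil => intro h; exact absurd h (by simp [anyp])
  | cons a L ih =>
    intro ha
    rw [anyp, Bool.or_eq_true] at ha ⊢
    rcases ha with ha | ha
    · left
      obtain ⟨y, h1, h2⟩ := List.any_eq_true.1 ha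
      exact List.any_eq_true.2 ⟨y, h1, h _ _ h2⟩
    · exact Or.inr (ih ha)

/-- the patterns which are needed for the live links `S`, by the mode `v` -/
def ndS (q : ℕ × ℕ) (S : List ℕ) (κ v : ℕ) : Option (List (ℕ × ℕ)) :=
  bif Nat.beq v 0 then (bif Nat.ble S.length κ then some [] else none) else
  bif Nat.beq v 1 then some [rt q S] else
  frc (rt q S).1 fun N => frc (rt q S).2 fun p =>
  bif Nat.beq v 2 then
    (bif Nat.ble 2 κ && Nat.ble (N + 4) 40 && nwi (N, p) q.1 && S.all (nwk (N, p) q.1) then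
      some ((prs S).map (fun x => (N + 1, cdd (thp (N, p) x.2) (3 * N + 1) (cdd (thp (N, p) x.1) (3 * N) p))) ++
        bif Nat.ble 3 κ then [] else (tps S).flatMap fun x =>
          tpx N p (thp (N, p) x.1) (thp (N, p) x.2.1) (thp (N, p) x.2.2))
    else none) else
  (bif Nat.ble (N + κ + 2) 40 && nwi (N, p) q.1 && S.all (nwk (N, p) q.1) then
    some ((slp (prs S) (v - 3)).flatMap (fun x => lpx N p (3 * tg (dg p x.1) + 2) (3 * tg (dg p x.2) + 2)) ++
      (S.sublists.filter fun Z => Nat.beq Z.length (Nat.succ κ) &&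
        !anyp (fun x y => mem2 (x, y) (slp (prs S) (v - 3))) Z).flatMap fun Z =>
          kpx N (Z.map (thp (N, p))) (N + 1) p 0 [])
  else none)

theorem ndS_ok {q : ℕ × ℕ} {S : List ℕ} {κ v : ℕ} {L XL : List (ℕ × ℕ)} (h : ndS q S κ v = some L)
    (hL : ∀ s ∈ L, s ∈ XL) : (kpc4 XL q S κ || mem2 (rt q S) XL) = true := by
  unfold ndS at h
  cases v0 : Nat.beq v 0
  swap
  · rw [v0, cond_true] at h
    cases h1 : Nat.ble S.length κ
    · rw [h1] at h
      exact absurd h (by simp)
    · unfold kpc4 kpc3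
      rw [h1]
      rfl
  rw [v0, cond_false] at h
  cases v1 : Nat.beq v 1
  swap
  · rw [v1, cond_true, Option.some.injEq] at h
    rw [mem2_mem (hL _ (h ▸ List.mem_singleton_self _)), Bool.or_true]
  rw [v1, cond_false, frc_eq, frc_eq] at h
  cases v2 : Nat.beq v 2
  swap
  · rw [v2, cond_true] at h
    cases h1 : Nat.ble 2 κ && Nat.ble ((rt q S).1 + 4) 40 && nwi ((rt q S).1, (rt q S).2) q.1 &&
        S.all (nwk ((rt q S).1, (rt q S).2) q.1)
    · rw [h1] at h
      exact absurd h (by simp)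
    rw [h1, cond_true, Option.some.injEq] at h
    have h2 : kpt XL ((rt q S).1, (rt q S).2) q.1 S κ = true := by
      unfold kpt
      change (Nat.ble 2 κ && Nat.ble ((rt q S).1 + 4) 40 && nwi ((rt q S).1, (rt q S).2) q.1 &&
        S.all (nwk ((rt q S).1, (rt q S).2) q.1) && allp (f1p XL ((rt q S).1, (rt q S).2)) S &&
        (Nat.ble 3 κ || allt (t8p XL ((rt q S).1, (rt q S).2)) S)) = true
      rw [h1, Bool.true_and, Bool.and_eq_true]
      constructor
      · refine allp_prs fun x hx => ?_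
        unfold f1p
        refine mem2_mem (hL _ ?_)
        rw [← h]
        exact List.mem_append_left _ (List.mem_map.2 ⟨x, hx, rfl⟩)
      · cases h3 : Nat.ble 3 κ
        · rw [Bool.false_or]
          refine allt_tps fun x hx => ?_
          unfold t8p
          refine List.all_eq_true.2 fun s hs => mem2_mem (hL _ ?_)
          rw [← h, h3, cond_false]
          exact List.mem_append_right _ (List.mem_flatMap.2 ⟨x, hx, hs⟩)
        · rfl
    unfold kpc4 kpc3
    rw [frc_eq, frc_eq, h2, Bool.or_true, Bool.or_true, Bool.true_or, Bool.true_or]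
  rw [v2, cond_false] at h
  cases h1 : Nat.ble ((rt q S).1 + κ + 2) 40 && nwi ((rt q S).1, (rt q S).2) q.1 &&
      S.all (nwk ((rt q S).1, (rt q S).2) q.1)
  · rw [h1] at h
    exact absurd h (by simp)
  rw [h1, cond_true, Option.some.injEq] at h
  have h2 : kpq XL ((rt q S).1, (rt q S).2) q.1 S κ = true := by
    unfold kpq
    change (Nat.ble ((rt q S).1 + κ + 2) 40 && nwi ((rt q S).1, (rt q S).2) q.1 &&
      S.all (nwk ((rt q S).1, (rt q S).2) q.1) && S.sublists.all fun Z => !Nat.beq Z.length (Nat.succ κ) ||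
        (kqf XL ((rt q S).1, (rt q S).2) Z || anyp (fbp XL ((rt q S).1, (rt q S).2)) Z)) = true
    rw [h1, Bool.true_and]
    refine List.all_eq_true.2 fun Z hZ => ?_
    cases h3 : Nat.beq Z.length (Nat.succ κ)
    · rfl
    cases h4 : anyp (fun x y => mem2 (x, y) (slp (prs S) (v - 3))) Z
    · have h5 : kqf XL ((rt q S).1, (rt q S).2) Z = true := by
        unfold kqf
        refine List.all_eq_true.2 fun s hs => mem2_mem (hL _ ?_)
        rw [← h]
        refine List.mem_append_right _ (List.mem_flatMap.2 ⟨Z, List.mem_filter.2 ⟨hZ, ?_⟩, hs⟩)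
        rw [h3, h4]
        rfl
      rw [h5]
      rfl
    · have h5 : anyp (fbp XL ((rt q S).1, (rt q S).2)) Z = true := by
        refine anyp_mono (fun x y hxy => ?_) h4
        unfold fbp
        refine List.all_eq_true.2 fun s hs => mem2_mem (hL _ ?_)
        rw [← h]
        exact List.mem_append_left _ (List.mem_flatMap.2 ⟨(x, y), mem2_of hxy, hs⟩)
      rw [h5, Bool.or_true, Bool.or_true]
  unfold kpc4
  rw [frc_eq, frc_eq, h2, Bool.or_true, Bool.true_or]

/-- the check of the states of a piece: one mode for every state, one hint for every needed pattern -/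
def ckT (Ps : List (ℕ × ℕ)) (q : ℕ × ℕ) (KD : List ℕ) (l : ℕ) : List (List ℕ) → List ℕ → ℕ → Bool
  | [], _, _ => true
  | _ :: _, [], _ => false
  | S :: SS, v :: MD, H => match ndS q S (KD.getD (l - S.length) 0) v with
    | none => false
    | some L => allK Ps (fun H' => ckT Ps q KD l SS MD H') L H

theorem ckT_of {Ps : List (ℕ × ℕ)} {q : ℕ × ℕ} {KD : List ℕ} {l : ℕ} : ∀ {SS : List (List ℕ)} {MD : List ℕ}
    {H : ℕ}, ckT Ps q KD l SS MD H = true → ∀ S ∈ SS,
      (kpc4 (dnL Ps) q S (KD.getD (l - S.length) 0) || mem2 (rt q S) (dnL Ps)) = true := by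
  intro SS
  induction SS with
  | nil => intro _ _ _ S hS; exact absurd hS List.not_mem_nil
  | cons a SS ih =>
    intro MD H h S hS
    cases MD with
    | nil => exact absurd h (by simp [ckT])
    | cons v MD =>
      rw [ckT] at h
      cases hn : ndS q a (KD.getD (l - a.length) 0) v with
      | none => rw [hn] at h; exact absurd h (by simp)
      | some L =>
        rw [hn] at h
        dsimp only at h
        obtain ⟨h1, H', h2⟩ := allK_of h
        rcases List.mem_cons.1 hS with rfl | hS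
        · exact ndS_ok hn h1
        · exact ih h2 S hS

/-- the check for a piece -/
def pckI (Ps : List (ℕ × ℕ)) (g : ℕ) (TJ : List (List (List ℕ))) (a b : CPc) (KD MD : List ℕ) (H : ℕ) : Bool :=
  (a.2.all fun x => Nat.ble x 1000) && ckT Ps a.1 KD (lkp a.1).length (lkp a.1).sublists MD H &&
  (List.range ((lkp a.1).length + 1)).all fun d => (List.range TJ.length).all fun i =>
    tkj g (TJ.getD i []) a.2 b.2 d (Nat.min ((lkp a.1).length - d) ((i + 1) * KD.getD d 0))

theorem pckI_of {Ps : List (ℕ × ℕ)} {g : ℕ} {TJ : List (List (List ℕ))} {a b : CPc} {KD MD : List ℕ} {H : ℕ}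
    (h : pckI Ps g TJ a b KD MD H = true) : pckJ (dnL Ps) g TJ a b KD = true := by
  unfold pckI at h
  unfold pckJ
  rw [Bool.and_eq_true, Bool.and_eq_true] at h ⊢
  exact ⟨⟨h.1.1, List.all_eq_true.2 fun S hS => ckT_of h.1.2 S hS⟩, h.2⟩

/-- the check for all pieces: the bounds `KJ`, the modes `MJ`, the hints `HJ` -/
def pcksI (Ps : List (ℕ × ℕ)) (g : ℕ) (TJ : List (List (List ℕ))) :
    List CPc → List CPc → List (List ℕ) → List (List ℕ) → List ℕ → Bool
  | [], _, _, _, _ => true
  | a :: CA, b :: CB, K :: KJ, M :: MJ, H :: HJ => pckI Ps g TJ a b K M H && pcksI Ps g TJ CA CB KJ MJ HJ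
  | _ :: _, _, _, _, _ => false

theorem pcksI_of {Ps : List (ℕ × ℕ)} {g : ℕ} {TJ : List (List (List ℕ))} : ∀ {CA CB : List CPc}
    {KJ MJ : List (List ℕ)} {HJ : List ℕ}, pcksI Ps g TJ CA CB KJ MJ HJ = true → ∀ i < CA.length,
    ∃ K, pckJ (dnL Ps) g TJ (gE CA i) (gE CB i) K = true := by
  intro CA
  induction CA with
  | nil => intro CB KJ MJ HJ _ i hi; exact absurd hi (by simp)
  | cons a CA ih =>
    intro CB KJ MJ HJ h i hi
    match CB, KJ, MJ, HJ with
    | [], _, _, _ => exact absurd h (by simp [pcksI])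
    | _ :: _, [], _, _ => exact absurd h (by simp [pcksI])
    | _ :: _, _ :: _, [], _ => exact absurd h (by simp [pcksI])
    | _ :: _, _ :: _, _ :: _, [] => exact absurd h (by simp [pcksI])
    | b :: CB, K :: KJ, M :: MJ, H :: HJ =>
      rw [pcksI, Bool.and_eq_true] at h
      cases i with
      | zero => exact ⟨K, pckI_of h.1⟩
      | succ i => exact ih h.2 i (by simpa using hi)

/-- the states with a positive value -/
def nzq : List CPc → List (ℕ × ℕ)
  | [] => []
  | e :: CB => ((lkp e.1).sublists.filter fun S => !Nat.beq (cfv e ((lkp e.1).length - S.length)) 0).map (rt e.1) ++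
    nzq CB

theorem nzq_of {XL : List (ℕ × ℕ)} : ∀ {CB : List CPc}, (∀ s ∈ nzq CB, s ∈ XL) → nzk XL CB = true := by
  intro CB h
  unfold nzk
  refine List.all_eq_true.2 fun e he => List.all_eq_true.2 fun S hS => ?_
  cases hv : Nat.beq (cfv e ((lkp e.1).length - S.length)) 0
  · rw [Bool.false_or]
    refine mem2_mem (h _ ?_)
    clear h
    induction CB with
    | nil => exact absurd he List.not_mem_nil
    | cons a CB ih =>
      rw [nzq]
      rcases List.mem_cons.1 he with rfl | he
      · refine List.mem_append_left _ (List.mem_map.2 ⟨S, List.mem_filter.2 ⟨hS, ?_⟩, rfl⟩)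
        rw [hv]
        rfl
      · exact List.mem_append_right _ (ih he)
  · rfl

/-- the first `j` records are closed patterns, one hint for each -/
def j0I (Ps : List (ℕ × ℕ)) (B : ℕ) : ℕ → ℕ → ℕ → Bool
  | 0, _, _ => true
  | j + 1, i, H => frc (rcd B i) fun R => memI Ps (Nat.mod H 16777216) (Nat.mod R 256) (Nat.div R 256) &&
    wfp (Nat.mod R 256, Nat.div R 256) && frc (Nat.succ i) fun i' => frc (Nat.div H 16777216) fun H' =>
      j0I Ps B j i' H'

theorem j0I_of {Ps : List (ℕ × ℕ)} {B : ℕ} : ∀ {j i H : ℕ}, j0I Ps B j i H = true → ∀ l, i ≤ l → l < i + j →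
    prc B l ∈ dnL Ps ∧ wfp (prc B l) = true := by
  intro j
  induction j with
  | zero => intro i H _ l h1 h2; omega
  | succ j ih =>
    intro i H h l h1 h2
    rw [j0I, frc_eq, frc_eq, frc_eq] at h
    simp only [Bool.and_eq_true] at h
    rcases Nat.lt_or_ge i l with h3 | h3
    · exact ih h.2 l h3 (by omega)
    · rw [show l = i by omega]
      exact ⟨memI_of h.1.1, h.1.2⟩

theorem ents_dnI {Ps : List (ℕ × ℕ)} (st : Stp) {B j H : ℕ} (h : j0I Ps B j 0 H = true) :
    ∀ i < j, Val (stD (dnL Ps) st) (prc B i) := fun i hi => by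
  obtain ⟨h1, h2⟩ := j0I_of h i (Nat.zero_le _) (by omega)
  exact val_mem st h1 h2

/-- **one phase from the fast checker**, all memberships with hints -/
theorem Dj.rawI {CA CB : List CPc} (hCA : vok CA) (hCB : vok CB) {ML : List MPc} (hMA : ML = mcl CA)
    (hMB : ML = mcl CB) (hML : ML.all mkok = true) {tf : Bool} {PL Ps : List (ℕ × ℕ)}
    (hPL : PL.all wfp = true) (h : Dj CA CB tf PL (dnL Ps)) {D hA hB : ℕ}
    (h1 : (Nat.ble 2 D || memI Ps hA 1 257) = true) (h0 : (Nat.ble 1 D || memI Ps hB 1 1) = true)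
    {g : ℕ} (hg : 0 < g) {TJ : List (List (List ℕ))} (hTJ : (TJ.all okJ) = true) {KJ MJ : List (List ℕ)}
    {HJ : List ℕ} (hKJ : pcksI Ps g TJ CA CB KJ MJ HJ = true) {ne : Bool} {HN : ℕ}
    (hne : (!ne || allK Ps (fun _ => true) (nzq CB) HN) = true)
    {sf : ℕ → ℕ → ℕ → Option (List (ℕ × ℕ))} {lf dl : ℕ → ℕ → ℕ → Bool}
    (hs : Sfn (okB D tf) (stJ ne CA CB g TJ tf ML PL D) sf lf dl) {B N : ℕ}
    (hV : ∀ i < N, Val (stD (dnL Ps) (stJ ne CA CB g TJ tf ML PL D)) (prc B i)) {RB NR z : ℕ}
    (hR : clsM lf dl B N (unp RB NR 0) z = true) : Dj CA CB tf PL (dnL ((RB, NR) :: Ps)) := by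
  refine Dj.rawT hCA hCB hMA hMB hML hPL h (XL := dnL Ps) (fun _ hq => hq) (fun hD => ?_) (fun hD => ?_) hTJ
    (fun V _ _ G _ hG U hI hX => tabJ_ofI hG hI hCA.1 hg hTJ (pcksI_of hKJ) hX) ?_ hs hV hR
  · rw [Bool.or_eq_true] at h1
    rcases h1 with h1 | h1
    · have := Nat.le_of_ble_eq_true h1
      omega
    · exact memI_of h1
  · rw [Bool.or_eq_true] at h0
    rcases h0 with h0 | h0
    · have := Nat.le_of_ble_eq_true h0
      omega
    · exact memI_of h0
  · rw [Bool.or_eq_true] at hne ⊢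
    rcases hne with hne | hne
    · exact Or.inl hne
    · exact Or.inr (nzq_of (allK_of hne).1)

end EF18.P80
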