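import Pool.Agent.Lib.MP_ef18bd_co.R80.Idx

/-!
# One phase in pieces

`RtI`: the first `k` roots are closed; `PpI`: the first `k` pieces are checked; `Dj.rawP`: one phase from both.
-/

namespace EF18.P80

open Finset

/-- the first `k` roots are closed -/
def RtI (ok : ℕ → ℕ → Bool) (st : Stp) (RB k : ℕ) : Prop :=
  ∀ i < k, ClV st (prc RB i) ∨ ok (prc RB i).1 (prc RB i).2 = false

theorem rtI_zero (ok : ℕ → ℕ → Bool) (st : Stp) (RB : ℕ) : RtI ok st RB 0 :=
  fun _ h => absurd h (Nat.not_lt_zero _)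

theorem rtI_step {ok : ℕ → ℕ → Bool} {st : Stp} {sf : ℕ → ℕ → ℕ → Option (List (ℕ × ℕ))}
    {lf dl : ℕ → ℕ → ℕ → Bool} (hs : Sfn ok st sf lf dl) {B N : ℕ} (hV : ∀ i < N, Val st (prc B i))
    {RB k n k' z : ℕ} (h : RtI ok st RB k) (hz : clsM lf dl B N (unp RB n k) z = true) (hk : k + n = k') :
    RtI ok st RB k' := by
  intro i hi
  rcases Nat.lt_or_ge i k with h1 | h1
  · exact h i h1
  · exact clsM_sound hs hV hz _ (mem_unp h1 (by omega))

theorem unp_mem {B : ℕ} {q : ℕ × ℕ} : ∀ {N i : ℕ}, q ∈ unp B N i → ∃ j, i ≤ j ∧ j < i + N ∧ q = prc B j := by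
  intro N
  induction N with
  | zero => intro i h; exact absurd h List.not_mem_nil
  | succ N ih =>
    intro i h
    rw [unp_succ] at h
    rcases List.mem_cons.1 h with rfl | h
    · exact ⟨i, le_rfl, by omega, rfl⟩
    · obtain ⟨j, h1, h2, h3⟩ := ih h
      exact ⟨j, by omega, by omega, h3⟩

/-- the first `k` pieces are checked -/
def PpI (Ps : List (ℕ × ℕ)) (g : ℕ) (TJ : List (List (List ℕ))) (CA CB : List CPc) (k : ℕ) : Prop :=
  ∀ i < k, ∃ K, pckJ (dnL Ps) g TJ (gE CA i) (gE CB i) K = true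

theorem ppI_zero (Ps : List (ℕ × ℕ)) (g : ℕ) (TJ : List (List (List ℕ))) (CA CB : List CPc) :
    PpI Ps g TJ CA CB 0 := fun _ h => absurd h (Nat.not_lt_zero _)

theorem ppI_step {Ps : List (ℕ × ℕ)} {g : ℕ} {TJ : List (List (List ℕ))} {CA CB : List CPc} {k k' : ℕ}
    (h : PpI Ps g TJ CA CB k) {K M : List ℕ} {H : ℕ} (hk : pckI Ps g TJ (gE CA k) (gE CB k) K M H = true)
    (he : k + 1 = k') : PpI Ps g TJ CA CB k' := by
  intro i hi
  rcases Nat.lt_or_ge i k with h1 | h1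
  · exact h i h1
  · rw [show i = k by omega]
    exact ⟨K, pckI_of hk⟩

/-- **one phase from the fast checker**, in pieces -/
theorem Dj.rawP {CA CB : List CPc} (hCA : vok CA) (hCB : vok CB) {ML : List MPc} (hMA : ML = mcl CA)
    (hMB : ML = mcl CB) (hML : ML.all mkok = true) {tf : Bool} {PL Ps : List (ℕ × ℕ)}
    (hPL : PL.all wfp = true) (h : Dj CA CB tf PL (dnL Ps)) {D hA hB : ℕ}
    (h1 : (Nat.ble 2 D || memI Ps hA 1 257) = true) (h0 : (Nat.ble 1 D || memI Ps hB 1 1) = true)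
    {g : ℕ} (hg : 0 < g) {TJ : List (List (List ℕ))} (hTJ : (TJ.all okJ) = true) {m : ℕ}
    (hK : PpI Ps g TJ CA CB m) (hm : CA.length = m) {ne : Bool} {HN : ℕ}
    (hne : (!ne || allK Ps (fun _ => true) (nzq CB) HN) = true) {RB NR : ℕ}
    (hR : RtI (okB D tf) (stD (dnL Ps) (stJ ne CA CB g TJ tf ML PL D)) RB NR) :
    Dj CA CB tf PL (dnL ((RB, NR) :: Ps)) := by
  intro V _ _ G _ hG hc htf U hI hU hne' hiso hcl hq
  by_cases hd : ∃ q ∈ dnL Ps, ∃ φ ν : ℕ → V, Emb G U q.1 q.2 φ ν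
  · exact h V G hG hc htf U hI hU hne' hiso hcl hd
  obtain ⟨q, hq, φ, ν, he⟩ := hq
  have hno : ∀ q ∈ dnL Ps, ∀ φ ν : ℕ → V, ¬ Emb G U q.1 q.2 φ ν := fun q hq φ ν he => hd ⟨q, hq, φ, ν, he⟩
  rcases List.mem_append.1 hq with hq | hq
  swap
  · exact absurd he (hno q hq φ ν)
  have h2 := n1_le_two hG hI hiso
  have hD : ∀ x ∈ U, n1 G U x ≤ D := by
    by_cases hD2 : 2 ≤ D
    · exact fun x hx => (h2 x hx).trans hD2
    intro x hx
    by_contra hc
    push Not at hc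
    by_cases hD1 : D = 1
    · obtain ⟨φ, ν, e⟩ := root2 hG hx (show 2 ≤ n1 G U x by omega)
      rw [Bool.or_eq_true] at h1
      rcases h1 with h1 | h1
      · have := Nat.le_of_ble_eq_true h1
        omega
      · exact hno _ (memI_of h1) φ ν e
    · obtain ⟨φ, ν, e⟩ := root1 hG hx (show 1 ≤ n1 G U x by omega)
      rw [Bool.or_eq_true] at h0
      rcases h0 with h0 | h0
      · have := Nat.le_of_ble_eq_true h0
        omega
      · exact hno _ (memI_of h0) φ ν e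
  have hNX : NoE G U (dnL Ps) := hno
  have hz : ne = true → exv CB G U = 0 := fun e => by
    rw [e, Bool.not_true, Bool.false_or] at hne
    exact nzk_of hG hCB.1 (nzq_of (allK_of hne).1) hNX
  have hst := (snd_stJ hG hc hI hU hCA hCB hTJ hMA hMB hML
    (tabJ_ofI hG hI hCA.1 hg hTJ (fun i hi => hK i (hm ▸ hi)) hNX) hz hPL hD hiso htf hcl).stD (dn := dnL Ps)
    fun q hq φ ν he => absurd he (hno q hq φ ν)
  obtain ⟨j, -, j2, rfl⟩ := unp_mem hq
  exact clO_of (hR j (by omega)) V G U _ (fun _ _ _ _ he => he.okB hG hD htf) hst φ ν he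

end EF18.P80
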